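import Mathlib

/-!
# Project H695-LP: almost sure pure point spectrum for a dense set of limit-periodic operators

Statements of the tasks. Everything here is elementary; the tasks are independent of each other
unless a task says that it may assume another one.
-/

set_option autoImplicit false

open scoped BigOperators ENNReal
open MeasureTheory

namespace Pool.Agent.H695R3.PP

/-! ### Probability -/

/-- The uniform probability measure on `[-1, 1]`. -/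
noncomputable def U : Measure ℝ := ENNReal.ofReal (1 / 2) • volume.restrict (Set.Icc (-1) 1)

instance : IsProbabilityMeasure U := by
  constructor
  unfold U
  rw [Measure.smul_apply, Measure.restrict_apply MeasurableSet.univ, Set.univ_inter,
    Real.volume_Icc, smul_eq_mul, ← ENNReal.ofReal_mul (by norm_num)]
  norm_num

/-- i.i.d. uniform variables on all sites of `ℤ`. -/
noncomputable def PZ : Measure (ℤ → ℝ) := Measure.infinitePi fun _ : ℤ => U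

instance : IsProbabilityMeasure PZ := by unfold PZ; infer_instance

/-- Resampling one coordinate preserves the product measure. -/
def TaskResample : Prop :=
  ∀ (ι : Type) [DecidableEq ι] (X : ι → Type) [∀ i, MeasurableSpace (X i)]
    (μ : ∀ i, Measure (X i)) [∀ i, IsProbabilityMeasure (μ i)] (i : ι),
    Measure.map (fun p : (∀ j, X j) × X i => Function.update p.1 i p.2)
      ((Measure.infinitePi μ).prod (μ i)) = Measure.infinitePi μ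

/-! ### Finite boxes -/

/-- The squared norm on `[a, b]`. -/
noncomputable def nsq (a b : ℤ) (ψ : ℤ → ℝ) : ℝ := ∑ n ∈ Finset.Icc a b, ψ n ^ 2

/-- `ψ` is a normalised eigenvector, with eigenvalue `E`, of the operator
`(H ψ)(n) = ψ(n+1) + ψ(n-1) + V(n) ψ(n)` on the box `[a, b]` (Dirichlet conditions). -/
def IsEig (V : ℤ → ℝ) (a b : ℤ) (E : ℝ) (ψ : ℤ → ℝ) : Prop :=
  (∀ n, n < a ∨ b < n → ψ n = 0) ∧ nsq a b ψ = 1 ∧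
    ∀ n, a ≤ n → n ≤ b → ψ (n + 1) + ψ (n - 1) + V n * ψ n = E * ψ n

/-- Spectral averaging. -/
def TaskSA : Prop :=
  ∀ (V : ℤ → ℝ) (a b m : ℤ) (A : Set ℝ) (κ : ℝ), 0 < κ →
    volume {t : ℝ | ∃ E ∈ A, ∃ ψ, IsEig (Function.update V m t) a b E ψ ∧ κ ≤ ψ m ^ 2} ≤
      ENNReal.ofReal (1 / κ) * volume A

/-- Spectral averaging, in probability. -/
def TaskSAP : Prop :=
  ∀ (W : ℤ → ℝ) (ε κ : ℝ) (a b m : ℤ) (A : (ℤ → ℝ) → Set ℝ) (B : Set (ℤ → ℝ)),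
    0 < ε → 0 < κ → MeasurableSet B → (∀ x s, A (Function.update x m s) = A x) →
    (∀ x ∈ B, ∃ E ∈ A x, ∃ ψ, IsEig (fun n => W n + ε * x n) a b E ψ ∧ κ ≤ ψ m ^ 2) →
    PZ B ≤ ∫⁻ x, ENNReal.ofReal (1 / (2 * ε * κ)) * volume (A x) ∂PZ

/-- Closedness of spectral conditions. -/
def TaskClosed : Prop :=
  ∀ (a b : ℤ) (R : ℝ) (C : Set ((ℝ × (ℤ → ℝ)) × (ℤ → ℝ))), IsClosed C →
    IsClosed {V : ℤ → ℝ | ∃ E ψ, |E| ≤ R ∧ IsEig V a b E ψ ∧ ((E, ψ), V) ∈ C}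

/-- Closedness of spectral conditions with two eigenvectors. -/
def TaskClosed2 : Prop :=
  ∀ (a b a' b' : ℤ) (R : ℝ) (C : Set ((ℝ × (ℤ → ℝ)) × (ℝ × (ℤ → ℝ)))), IsClosed C →
    IsClosed {V : ℤ → ℝ | ∃ E ψ E' ψ', |E| ≤ R ∧ |E'| ≤ R ∧ IsEig V a b E ψ ∧
      IsEig V a' b' E' ψ' ∧ ((E, ψ), (E', ψ')) ∈ C}

/-- The bad event of the first kind: an eigenvector of the box `[-L, L]` with `|ψ(0)| ≥ a` that is
not smaller than `τ` at one of the two ends of the box. -/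
def Bad1 (L : ℕ) (a τ : ℝ) (V : ℤ → ℝ) : Prop :=
  ∃ E ψ, IsEig V (-(L : ℤ)) L E ψ ∧ a ≤ |ψ 0| ∧ (τ ≤ |ψ L| ∨ τ ≤ |ψ (-(L : ℤ))|)

/-- The bad event of the second kind: two different eigenvalues of the box `[-L, L]` at distance at
most `d`. -/
def Bad2 (L : ℕ) (d : ℝ) (V : ℤ → ℝ) : Prop :=
  ∃ E ψ E' ψ', IsEig V (-(L : ℤ)) L E ψ ∧ IsEig V (-(L : ℤ)) L E' ψ' ∧ E ≠ E' ∧ |E - E'| ≤ d

/-- Measurability of the bad events. -/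
def TaskMeas : Prop :=
  (∀ (L : ℕ) (a τ : ℝ), MeasurableSet {V : ℤ → ℝ | Bad1 L a τ V}) ∧
    ∀ (L : ℕ) (d : ℝ), MeasurableSet {V : ℤ → ℝ | Bad2 L d V}

/-! ### Kunz-Souillard contraction -/

/-- The squared `L²` norm. -/
noncomputable def nsqL (g : ℝ → ℝ≥0∞) : ℝ≥0∞ := ∫⁻ x, g x ^ 2

/-- Averaging at scale `ε`. -/
noncomputable def avg (ε : ℝ) (g : ℝ → ℝ≥0∞) (x : ℝ) : ℝ≥0∞ := ∫⁻ s, g (x + ε * s) ∂U

/-- Inversion and reflection. -/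
noncomputable def UR (c : ℝ) (g : ℝ → ℝ≥0∞) (z : ℝ) : ℝ≥0∞ :=
  ENNReal.ofReal |z|⁻¹ * g (c - z⁻¹)

/-- Inversion is an isometry of `L²`. -/
def TaskIso : Prop :=
  ∀ (c : ℝ) (g : ℝ → ℝ≥0∞), Measurable g → nsqL (UR c g) = nsqL g ∧
    ∫⁻ z in {z : ℝ | 1 < |z|}, UR c g z ^ 2 ≤ ∫⁻ y in Set.Icc (c - 1) (c + 1), g y ^ 2

/-- Simple properties of averages. -/
def TaskAvg : Prop :=
  ∀ (ε : ℝ) (g : ℝ → ℝ≥0∞), 0 < ε → ε ≤ 1 → Measurable g → Measurable (avg ε g) ∧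
    nsqL (avg ε g) ≤ nsqL g ∧
    (∀ c : ℝ, ∫⁻ y in Set.Icc (c - 1) (c + 1), avg ε g y ^ 2 ≤
      ∫⁻ y in Set.Icc (c - 2) (c + 2), g y ^ 2) ∧
    ∀ x, avg ε g x ≤ ENNReal.ofReal (1 / Real.sqrt ε) * nsqL g ^ (1 / 2 : ℝ)

/-- Averaging loses a part of the norm unless the function is spread out. -/
def TaskDich : Prop :=
  ∃ C : ℝ, 1 ≤ C ∧ ∀ (ε : ℝ) (g : ℝ → ℝ≥0∞) (y : ℝ), 0 < ε → ε ≤ 1 → Measurable g →
    (∫⁻ x in Set.Icc y (y + 4), g x ^ 2) + ENNReal.ofReal (C / ε ^ 2) * nsqL (avg ε g) ≤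
      ENNReal.ofReal (1 / 8) * nsqL g + ENNReal.ofReal (C / ε ^ 2) * nsqL g

/-- The contraction. -/
def TaskContr : Prop :=
  ∃ c : ℝ, 0 < c ∧ c ≤ 1 / 2 ∧ ∀ (ε c₁ : ℝ) (g : ℝ → ℝ≥0∞), 0 < ε → ε ≤ 1 → Measurable g →
    nsqL (avg ε (UR c₁ (avg ε g))) ≤ ENNReal.ofReal (1 - c * ε ^ 2) * nsqL g

/-- The solution from the right end: `rsol V E b j = (ψ (b - j), ψ (b - j + 1))` for the solution
of `ψ(n+1) + ψ(n-1) + V(n) ψ(n) = E ψ(n)` with `ψ(b) = 1`, `ψ(b+1) = 0`. -/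
noncomputable def rsol (V : ℤ → ℝ) (E : ℝ) (b : ℤ) : ℕ → ℝ × ℝ
  | 0 => (1, 0)
  | (j + 1) => ((E - V (b - j)) * (rsol V E b j).1 - (rsol V E b j).2, (rsol V E b j).1)

/-- The length of the solution. -/
noncomputable def rlen (V : ℤ → ℝ) (E : ℝ) (b : ℤ) (j : ℕ) : ℝ :=
  Real.sqrt ((rsol V E b j).1 ^ 2 + (rsol V E b j).2 ^ 2)

/-- The first negative moment of the length decays exponentially. -/
def TaskJ : Prop :=
  ∃ c C : ℝ, 0 < c ∧ c ≤ 1 / 2 ∧ 0 < C ∧ ∀ (ε E : ℝ) (W : ℤ → ℝ) (b : ℤ) (L : ℕ),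
    0 < ε → ε ≤ 1 →
    ∫⁻ x, ENNReal.ofReal (1 / rlen (fun n => W n + ε * x n) E b L) ∂PZ ≤
      ENNReal.ofReal (C / ε * (1 - c * ε ^ 2) ^ L)

/-- The fixed energy estimate. -/
def TaskFE : Prop :=
  ∃ c C : ℝ, 0 < c ∧ c ≤ 1 / 2 ∧ 0 < C ∧ ∀ (ε R E t : ℝ) (W : ℤ → ℝ) (L : ℕ),
    0 < ε → ε ≤ 1 → 1 ≤ R → |E| ≤ R → (∀ n, |W n| ≤ R) → 0 < t → 1 ≤ L →
    PZ {x | |(rsol (fun n => W n + ε * x n) E L L).1| ≤ t} ≤
      ENNReal.ofReal (C * R / ε ^ 2 * t * (1 - c * ε ^ 2) ^ L)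

/-- The probability of the first bad event. -/
def TaskG1 : Prop :=
  ∃ c C : ℝ, 0 < c ∧ c ≤ 1 / 2 ∧ 0 < C ∧ ∀ (ε R a τ : ℝ) (W : ℤ → ℝ) (L : ℕ),
    0 < ε → ε ≤ 1 → 1 ≤ R → (∀ n, |W n| ≤ R) → 0 < a → 0 < τ → 1 ≤ L →
    PZ {x | Bad1 L a τ (fun n => W n + ε * x n)} ≤
      ENNReal.ofReal (C * R ^ 2 / (ε ^ 3 * a ^ 2 * τ) * (1 - c * ε ^ 2) ^ L)

/-! ### Level spacing -/

/-- Approximate eigenvectors give eigenvalues. -/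
def TaskApprox : Prop :=
  ∀ (V : ℤ → ℝ) (a b : ℤ) (E δ : ℝ) (f : ℤ → ℝ), 0 ≤ δ → (∀ n, n < a ∨ b < n → f n = 0) →
    0 < nsq a b f →
    ∑ n ∈ Finset.Icc a b, (f (n + 1) + f (n - 1) + V n * f n - E * f n) ^ 2 ≤
      δ ^ 2 * nsq a b f →
    ∃ lam φ, IsEig V a b lam φ ∧ |lam - E| ≤ δ

/-- The eigenvalues of a box are finitely many, at most the number of sites. -/
def TaskCard : Prop :=
  ∀ (V : ℤ → ℝ) (a b : ℤ), a ≤ b →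
    ∃ F : Finset ℝ, (F.card : ℤ) ≤ b - a + 1 ∧ ∀ E ψ, IsEig V a b E ψ → E ∈ F

/-- Two close eigenvalues of a box give close eigenvalues of two complementary boxes. -/
def TaskSplit : Prop :=
  ∀ (V : ℤ → ℝ) (a b : ℤ) (E E' d : ℝ) (ψ ψ' : ℤ → ℝ), a ≤ b → IsEig V a b E ψ →
    IsEig V a b E' ψ' → E ≠ E' → |E - E'| ≤ d →
    ∃ m, a < m ∧ m ≤ b ∧ ∃ lam φ lam' φ', IsEig V a (m - 1) lam φ ∧ IsEig V m b lam' φ' ∧
      |lam - lam'| ≤ 3 * d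

/-- The probability of the second bad event. -/
def TaskG2 : Prop :=
  ∃ C : ℝ, 0 < C ∧ ∀ (ε d : ℝ) (W : ℤ → ℝ) (L : ℕ), 0 < ε → 0 < d →
    PZ {x | Bad2 L d (fun n => W n + ε * x n)} ≤ ENNReal.ofReal (C * ((L : ℝ) + 1) ^ 4 * d / ε)

/-! ### From box to box -/

/-- One step. -/
def TaskStep : Prop :=
  ∀ (V : ℤ → ℝ) (L L' : ℕ) (E τ d : ℝ) (ψ : ℤ → ℝ), L < L' → 0 < τ → 4 * τ ≤ d →
    ¬ Bad2 L' d V → IsEig V (-(L : ℤ)) L E ψ → |ψ L| ≤ τ → |ψ (-(L : ℤ))| ≤ τ →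
    ∃ E' φ, IsEig V (-(L' : ℤ)) L' E' φ ∧ |E' - E| ≤ 2 * τ ∧
      ∑ n ∈ Finset.Icc (-(L' : ℤ)) L', (ψ n - φ n) ^ 2 ≤ (4 * τ / d) ^ 2

/-- The eigenvectors of a box are complete (at the site `0`). -/
def TaskCompl : Prop :=
  ∀ (V : ℤ → ℝ) (L : ℕ), ∃ (e : Fin (2 * L + 1) → ℝ) (ψ : Fin (2 * L + 1) → ℤ → ℝ),
    (∀ j, IsEig V (-(L : ℤ)) L (e j) (ψ j)) ∧
    (∀ n : ℤ, (if n = 0 then (1 : ℝ) else 0) = ∑ j, ψ j 0 * ψ j n) ∧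
    ∀ c : Fin (2 * L + 1) → ℝ,
      ∑ n ∈ Finset.Icc (-(L : ℤ)) L, (∑ j, c j * ψ j n) ^ 2 = ∑ j, c j ^ 2

/-- The limit of a chain of eigenvectors. -/
def TaskChain : Prop :=
  ∀ (V : ℤ → ℝ) (L : ℕ → ℕ) (a τ d : ℕ → ℝ) (k₀ : ℕ), StrictMono L →
    (∀ k, 0 < a k ∧ 0 < τ k ∧ 0 < d k) → (∀ k, k₀ ≤ k → ¬ Bad1 (L k) (a k) (τ k) V) →
    (∀ k, k₀ ≤ k → ¬ Bad2 (L (k + 1)) (d (k + 1)) V) → (∀ k, k₀ ≤ k → 4 * τ k ≤ d (k + 1)) →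
    (∀ k, k₀ ≤ k → a (k + 1) + 4 * τ k / d (k + 1) ≤ a k) →
    Summable (fun k => τ k / d (k + 1)) → Summable τ →
    ∀ E ψ, IsEig V (-(L k₀ : ℤ)) (L k₀) E ψ → a k₀ ≤ |ψ 0| →
      ∃ (e : ℝ) (φ : ℤ → ℝ), Summable (fun n => φ n ^ 2) ∧
        (∀ n, φ (n + 1) + φ (n - 1) + V n * φ n = e * φ n) ∧
        Summable (fun n => (ψ n - φ n) ^ 2) ∧
        ∑' n, (ψ n - φ n) ^ 2 ≤ (4 * ∑' j, τ (k₀ + j) / d (k₀ + j + 1)) ^ 2

/-- The span of the square summable eigenvectors. -/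
noncomputable def EigSpan (V : ℤ → ℝ) : Submodule ℂ (lp (fun _ : ℤ => ℂ) 2) :=
  Submodule.span ℂ {ψ : lp (fun _ : ℤ => ℂ) 2 |
    ∃ E : ℝ, ∀ n : ℤ, ψ (n + 1) + ψ (n - 1) + (V n : ℂ) * ψ n = (E : ℂ) * ψ n}

/-- `δ₀` is in the closed span of the eigenvectors if only finitely many of the bad events happen.
May assume `TaskChain` and `TaskCompl`. -/
def TaskDelta : Prop :=
  ∀ (V : ℤ → ℝ) (L : ℕ → ℕ) (a τ d : ℕ → ℝ), StrictMono L →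
    (∀ k, 0 < a k ∧ 0 < τ k ∧ 0 < d k) → (∀ᶠ k in Filter.atTop, ¬ Bad1 (L k) (a k) (τ k) V) →
    (∀ᶠ k in Filter.atTop, ¬ Bad2 (L (k + 1)) (d (k + 1)) V) →
    (∀ᶠ k in Filter.atTop, 4 * τ k ≤ d (k + 1)) →
    (∀ᶠ k in Filter.atTop, a (k + 1) + 4 * τ k / d (k + 1) ≤ a k) →
    Summable (fun k => τ k / d (k + 1)) → Summable τ →
    Filter.Tendsto (fun k => (2 * (L k : ℝ) + 1) * a k ^ 2) Filter.atTop (nhds 0) →
    Filter.Tendsto (fun k => (2 * (L k : ℝ) + 1) * ∑' j, τ (k + j) / d (k + j + 1))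
      Filter.atTop (nhds 0) →
    lp.single 2 (0 : ℤ) (1 : ℂ) ∈ (EigSpan V).topologicalClosure

/-- All `δ_m` give everything. -/
def TaskTop : Prop :=
  ∀ V : ℤ → ℝ, (∀ m : ℤ, lp.single 2 (0 : ℤ) (1 : ℂ) ∈
      (EigSpan fun n => V (m + n)).topologicalClosure) → (EigSpan V).topologicalClosure = ⊤

/-! ### The group and the transfer of laws -/

/-- Small open subgroups. -/
def TaskGroup : Prop :=
  ∀ (Ω : Type) [AddCommGroup Ω] [TopologicalSpace Ω] [IsTopologicalAddGroup Ω]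
    [CompactSpace Ω] [T2Space Ω] [TotallyDisconnectedSpace Ω] [Infinite Ω] (α : Ω),
    Dense (Set.range (fun n : ℤ => n • α)) → ∀ N : ℕ,
    ∃ H : AddSubgroup Ω, IsOpen (H : Set Ω) ∧ Finite (Ω ⧸ H) ∧
      ∀ j : ℤ, j ≠ 0 → |j| ≤ N → j • α ∉ H

/-- The law of a window. -/
def TaskTransfer : Prop :=
  ∀ (Q : Type) [Fintype Q] (q : ℤ → Q) (L : ℕ) (W : ℤ → ℝ) (ε : ℝ) (B : Set (ℤ → ℝ)),
    Set.InjOn q (Set.Icc (-(L : ℤ)) L) → MeasurableSet B →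
    (∀ V V' : ℤ → ℝ, (∀ n, -(L : ℤ) ≤ n → n ≤ L → V n = V' n) → (V ∈ B ↔ V' ∈ B)) →
    Measure.pi (fun _ : Q => U) {η | (fun n => W n + ε * η (q n)) ∈ B} =
      PZ {x | (fun n => W n + ε * x n) ∈ B}

/-- Numerics. -/
def TaskNum : Prop :=
  ∀ κ A : ℝ, 0 < κ → 1 ≤ A → Summable (fun k : ℕ => A ^ k * Real.exp (-(κ * 4 ^ k))) ∧
    Filter.Tendsto (fun k : ℕ => A ^ k * ∑' j : ℕ, Real.exp (-(κ * 4 ^ (k + j))))
      Filter.atTop (nhds 0)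

end Pool.Agent.H695R3.PP
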