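import Pool.Agent.H695R3.PP.AsmMain
import Pool.Agent.H853R3.PP.TaskResample
import Pool.Agent.H400R3.PP.SA
import Pool.Agent.H318R3.PP.SAP
import Pool.Agent.H176R4.PP.TaskClosed
import Pool.Agent.H12R3.PP.Meas
import Pool.Agent.H915R3.PP.Iso
import Pool.Agent.H773.PP.TaskAvg
import Pool.Agent.H432R3.PP.Contr
import Pool.Agent.H643R3.PP.TJ
import Pool.Agent.H349R3.LP.FE
import Pool.Agent.H721R3.PP.TaskG1
import Pool.Agent.H41R3.PPApprox
import Pool.Agent.H105R3.LPTaskCard
import Pool.Agent.H165R3.PP.Split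
import Pool.Agent.H146R3.PP.G2
import Pool.Agent.H397R3.LP.Step
import Pool.Agent.H646R3.PP.TaskCompl
import Pool.Agent.H644R3.PP.Chain
import Pool.Agent.H150R3.PP.Delta
import Pool.Agent.H68R3.LP.TaskTop
import Pool.Agent.H879R3.PP.Group
import Pool.Agent.H980R3.PP.TaskTransfer
import Pool.Agent.H847R3.PP.TaskNum

/-!
# Project H695-LP: all tasks together

The single missing input of this file is the task `TaskDich`.
-/

set_option autoImplicit false

open MeasureTheory

namespace Pool.Agent.H695R3.PP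

theorem allTasks (hDich : TaskDich) (Ω : Type) [AddCommGroup Ω] [TopologicalSpace Ω]
    [IsTopologicalAddGroup Ω] [CompactSpace Ω] [T2Space Ω] [TotallyDisconnectedSpace Ω]
    [TopologicalSpace.MetrizableSpace Ω] [Infinite Ω] [MeasurableSpace Ω] [BorelSpace Ω]
    (μ : Measure Ω) [μ.IsAddHaarMeasure] (α : Ω)
    (hα : Dense (Set.range (fun n : ℤ => n • α))) :
    ∃ D : Set C(Ω, ℝ), Dense D ∧
        ∀ f ∈ D, ∀ᵐ ω ∂μ,
          (Submodule.span ℂ
            {ψ : lp (fun _ : ℤ => ℂ) 2 |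
              ∃ E : ℝ, ∀ n : ℤ,
                ψ (n + 1) + ψ (n - 1) + (f (ω + n • α) : ℂ) * ψ n = (E : ℂ) * ψ n}
            ).topologicalClosure = ⊤ := by
  have hR : TaskResample := Pool.Agent.H853R3.PP.Resample.taskResample
  have hSA : TaskSA := Pool.Agent.H400R3.PPSA.taskSA
  have hSAP : TaskSAP := taskSAP hR hSA
  have hCl : TaskClosed := Pool.Agent.H176R4.PP.taskClosed
  have hCl2 : TaskClosed2 := Pool.Agent.H176R4.PP.taskClosed2
  have hM : TaskMeas := Pool.Agent.H12R3.PP.taskMeas hCl hCl2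
  have hIso : TaskIso := taskIso
  have hAvg : TaskAvg := Pool.Agent.H773.PP.taskAvg
  have hContr : TaskContr := Pool.Agent.H432R3.PP.taskContr hIso hAvg hDich
  have hJ : TaskJ := Pool.Agent.H643R3.PPJ.taskJ hR hContr hIso hAvg
  have hFE : TaskFE := taskFE hJ hR
  have hG1 : TaskG1 := Pool.Agent.H721R3.PPG1.taskG1 hSAP hFE hCl
  have hAp : TaskApprox := Pool.Agent.H41R3.PPApprox.taskApprox
  have hCard : TaskCard := Pool.Agent.H105R3.LPCard.taskCard
  have hSplit : TaskSplit := Pool.Agent.H165R3.PP.taskSplit hAp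
  have hG2 : TaskG2 := Pool.Agent.H146R3.PP.taskG2 hSAP hSplit hCard hCl2
  have hStep : TaskStep := Pool.Agent.H397R3.LP.taskStep
  have hCompl : TaskCompl := Pool.Agent.H646R3.PP.Compl.taskCompl
  have hChain : TaskChain := Pool.Agent.H644R3.PP.taskChain hStep
  have hDelta : TaskDelta := Pool.Agent.H150R3.PP.taskDelta hChain hCompl
  have hTop : TaskTop := Pool.Agent.H68R3.LP.taskTop
  have hG : TaskGroup := Gp.taskGroup
  have hTr : TaskTransfer := Pool.Agent.H980R3.PP.taskTransfer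
  have hN : TaskNum := Pool.Agent.H847R3.PP.taskNum
  haveI : IsFiniteMeasure μ := CompactSpace.isFiniteMeasure
  exact assemble hR hM hG1 hG2 hDelta hTop hG hTr hN Ω μ α hα

end Pool.Agent.H695R3.PP
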