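import Pool.Agent.H695R3.PP.AsmProb

set_option autoImplicit false

open scoped BigOperators ENNReal
open MeasureTheory Filter Topology

namespace Pool.Agent.H695R3.PP

/-- existence of a good sampling function near a given one -/
theorem near (hR : TaskResample) (hM : TaskMeas) (h1 : TaskG1) (h2 : TaskG2) (hD : TaskDelta)
    (hT : TaskTop) (hG : TaskGroup) (hTr : TaskTransfer) (hN : TaskNum)
    (Ω : Type) [AddCommGroup Ω] [TopologicalSpace Ω] [IsTopologicalAddGroup Ω]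
    [CompactSpace Ω] [T2Space Ω] [TotallyDisconnectedSpace Ω] [Infinite Ω]
    [MeasurableSpace Ω] [BorelSpace Ω] (μ : Measure Ω) [IsFiniteMeasure μ] (α : Ω)
    (hα : Dense (Set.range (fun n : ℤ => n • α))) (f₀ : C(Ω, ℝ)) {ε : ℝ} (hε : 0 < ε)
    (hε' : ε ≤ 1) :
    ∃ f : C(Ω, ℝ), (∀ ω, |f ω - f₀ ω| ≤ ε) ∧
      ∀ᵐ ω ∂μ, (EigSpan fun n : ℤ => f (ω + n • α)).topologicalClosure = ⊤ := by
  classical
  obtain ⟨c₁, C₁, hc₁, hc₁', hC₁, G1⟩ := h1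
  obtain ⟨C₂, hC₂, G2⟩ := h2
  obtain ⟨R, hR1, hfR⟩ : ∃ R : ℝ, 1 ≤ R ∧ ∀ ω, |f₀ ω| ≤ R - 2 := by
    refine ⟨‖f₀‖ + 2, by linarith [norm_nonneg f₀], fun ω => ?_⟩
    rw [add_sub_cancel_right, ← Real.norm_eq_abs]
    exact f₀.norm_coe_le_norm ω
  choose H hO hF hH using fun k : ℕ => hG Ω α hα (2 * bl k)
  let _ : ∀ k, Fintype (Ω ⧸ H k) := fun k => Fintype.ofFinite _
  set κ : ℝ := c₁ * ε ^ 2 with hκ
  have hκ0 : 0 < κ := by positivity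
  have hHk : ∀ k (j : ℤ), j ≠ 0 → |j| ≤ 2 * (bl k : ℤ) → j • α ∉ H k := by
    intro k j hj hj'
    exact hH k j hj (by push_cast; exact hj')
  set p₁ : ℕ → ℝ := fun k => C₁ * R ^ 2 / (ep ε k ^ 3 * pa k ^ 2 * pt κ k) *
      (1 - c₁ * ep ε k ^ 2) ^ bl k with hp₁
  set p₂ : ℕ → ℝ := fun k => C₂ * ((bl (k + 1) : ℝ) + 1) ^ 4 * pd κ (k + 1) / ep ε (k + 1) with hp₂
  have hep : ∀ k, ep ε k ≤ 1 := by
    intro k
    unfold ep
    rw [div_le_one (by positivity)]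
    exact hε'.trans (one_le_pow₀ (by norm_num))
  have hp₁0 : ∀ k, 0 ≤ p₁ k := by
    intro k
    obtain ⟨q1, q2, q3⟩ := params_pos (κ := κ) k
    have h3 := ep_pos hε k
    have h4 := hep k
    have h0 : 0 ≤ 1 - c₁ * ep ε k ^ 2 := by nlinarith
    simp only [hp₁]
    positivity
  have hp₂0 : ∀ k, 0 ≤ p₂ k := by
    intro k
    obtain ⟨q1, q2, q3⟩ := params_pos (κ := κ) (k + 1)
    have h3 := ep_pos hε (k + 1)
    simp only [hp₂]
    positivity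
  have hbl : ∀ k, 1 ≤ bl k := fun k => Nat.one_le_pow _ _ (by norm_num)
  have e1 : ∀ m : ℤ, ∀ᵐ q ∂((PX H).prod μ), ∀ᶠ k in atTop,
      (fun n : ℤ => ff H f₀ ε q.1 (q.2 + m • α + n • α)) ∉
        {V : ℤ → ℝ | Bad1 (bl k) (pa k) (pt κ k) V} := by
    intro m
    refine bc H f₀.continuous hε hO α m (fun k => {V : ℤ → ℝ | Bad1 (bl k) (pa k) (pt κ k) V})
      (fun k => hM.1 _ _ _) p₁ hp₁0 (sum_p1 hN C₁ R hC₁.le hc₁ hc₁' hε hε') ?_
    intro k ω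
    refine level_le H hR hTr f₀.continuous hε hε' hfR hO α ω k (bl k) (hHk k) (hM.1 _ _ _)
      (fun V V' h => bad1_congr V V' h) ?_
    intro W hW
    exact G1 (ep ε k) R (pa k) (pt κ k) W (bl k) (ep_pos hε k) (hep k) hR1 hW
      (params_pos (κ := κ) k).1 (params_pos (κ := κ) k).2.1 (hbl k)
  have e2 : ∀ m : ℤ, ∀ᵐ q ∂((PX H).prod μ), ∀ᶠ k in atTop,
      (fun n : ℤ => ff H f₀ ε q.1 (q.2 + m • α + n • α)) ∉
        {V : ℤ → ℝ | Bad2 (bl (k + 1)) (pd κ (k + 1)) V} := by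
    intro m
    refine bc H f₀.continuous hε hO α m
      (fun k => {V : ℤ → ℝ | Bad2 (bl (k + 1)) (pd κ (k + 1)) V})
      (fun k => hM.2 _ _) p₂ hp₂0 (sum_p2 hN C₂ hC₂.le hκ0 hε) ?_
    intro k ω
    refine level_le H hR hTr f₀.continuous hε hε' hfR hO α ω (k + 1) (bl (k + 1)) (hHk (k + 1))
      (hM.2 _ _) (fun V V' h => bad2_congr V V' h) ?_
    intro W hW
    exact G2 (ep ε (k + 1)) (pd κ (k + 1)) W (bl (k + 1)) (ep_pos hε (k + 1))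
      (params_pos (κ := κ) (k + 1)).2.2
  have e3 : ∀ᵐ q ∂((PX H).prod μ), ∀ m : ℤ,
      lp.single 2 (0 : ℤ) (1 : ℂ) ∈
        (EigSpan fun n : ℤ => ff H f₀ ε q.1 (q.2 + m • α + n • α)).topologicalClosure := by
    rw [ae_all_iff]
    intro m
    filter_upwards [e1 m, e2 m] with q hq1 hq2
    exact hD _ bl pa (pt κ) (pd κ) bl_mono (fun k => params_pos k) hq1 hq2 (ev_one hN hκ0)
      (ev_two hN hκ0) (sum_td hN hκ0) (sum_t hN hκ0) tend_a (tend_s hN hκ0)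
  obtain ⟨ξ, hξ⟩ := (Measure.ae_ae_of_ae_prod e3).exists
  refine ⟨⟨ff H f₀ ε ξ, ff_cont H f₀.continuous hε hO ξ⟩, fun ω => ff_sub H hε ξ ω, ?_⟩
  filter_upwards [hξ] with ω hω
  apply hT
  intro m
  have e4 : (fun n : ℤ => (⟨ff H f₀ ε ξ, ff_cont H f₀.continuous hε hO ξ⟩ : C(Ω, ℝ))
      (ω + (m + n) • α)) = fun n : ℤ => ff H f₀ ε ξ (ω + m • α + n • α) := by
    funext n
    show ff H f₀ ε ξ (ω + (m + n) • α) = _
    rw [add_smul, add_assoc]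
  rw [e4]
  exact hω m

/-- the assembly -/
theorem assemble (hR : TaskResample) (hM : TaskMeas) (h1 : TaskG1) (h2 : TaskG2) (hD : TaskDelta)
    (hT : TaskTop) (hG : TaskGroup) (hTr : TaskTransfer) (hN : TaskNum)
    (Ω : Type) [AddCommGroup Ω] [TopologicalSpace Ω] [IsTopologicalAddGroup Ω]
    [CompactSpace Ω] [T2Space Ω] [TotallyDisconnectedSpace Ω] [Infinite Ω]
    [MeasurableSpace Ω] [BorelSpace Ω] (μ : Measure Ω) [IsFiniteMeasure μ] (α : Ω)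
    (hα : Dense (Set.range (fun n : ℤ => n • α))) :
    ∃ D : Set C(Ω, ℝ), Dense D ∧ ∀ f ∈ D, ∀ᵐ ω ∂μ,
      (Submodule.span ℂ {ψ : lp (fun _ : ℤ => ℂ) 2 | ∃ E : ℝ, ∀ n : ℤ,
        ψ (n + 1) + ψ (n - 1) + (f (ω + n • α) : ℂ) * ψ n = (E : ℂ) * ψ n}).topologicalClosure
        = ⊤ := by
  refine ⟨{f | ∀ᵐ ω ∂μ, (EigSpan fun n : ℤ => f (ω + n • α)).topologicalClosure = ⊤}, ?_,
    fun f hf => hf⟩
  rw [Metric.dense_iff]
  intro f₀ r hr
  obtain ⟨f, hf1, hf2⟩ := near hR hM h1 h2 hD hT hG hTr hN Ω μ α hα f₀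
    (ε := min 1 (r / 2)) (by positivity) (min_le_left _ _)
  refine ⟨f, ?_, hf2⟩
  rw [Metric.mem_ball, dist_eq_norm]
  refine lt_of_le_of_lt ?_ (half_lt_self hr)
  rw [ContinuousMap.norm_le _ (by positivity)]
  intro ω
  rw [ContinuousMap.sub_apply, Real.norm_eq_abs]
  exact (hf1 ω).trans (min_le_right _ _)

end Pool.Agent.H695R3.PP
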