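import Pool.Agent.H695R3.PP.Stmts

set_option autoImplicit false

open scoped BigOperators ENNReal
open MeasureTheory Filter Topology

namespace Pool.Agent.H695R3.PP

/-! ### the parameters -/

/-- amplitudes -/
noncomputable def ep (ε : ℝ) (k : ℕ) : ℝ := ε / 2 ^ (k + 1)

/-- box sizes -/
def bl (k : ℕ) : ℕ := 16 ^ (k + 1)

/-- lower bound for the weights -/
noncomputable def pa (k : ℕ) : ℝ := 1 / 16 ^ (k + 1)

/-- boundary size -/
noncomputable def pt (κ : ℝ) (k : ℕ) : ℝ := Real.exp (-(2 * κ * 4 ^ k))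

/-- level spacing -/
noncomputable def pd (κ : ℝ) (k : ℕ) : ℝ := Real.exp (-(κ / 4 * 4 ^ k))

lemma pd_succ (κ : ℝ) (k : ℕ) : pd κ (k + 1) = Real.exp (-(κ * 4 ^ k)) := by
  unfold pd; congr 1; rw [pow_succ]; ring

lemma pt_div (κ : ℝ) (k : ℕ) : pt κ k / pd κ (k + 1) = Real.exp (-(κ * 4 ^ k)) := by
  rw [pd_succ]; unfold pt; rw [← Real.exp_sub]; congr 1; ring

lemma bl_mono : StrictMono bl := by
  intro i j hij
  unfold bl
  exact Nat.pow_lt_pow_right (by norm_num) (by omega)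

lemma params_pos {κ : ℝ} (k : ℕ) : 0 < pa k ∧ 0 < pt κ k ∧ 0 < pd κ k := by
  refine ⟨?_, ?_, ?_⟩
  · unfold pa; positivity
  · exact Real.exp_pos _
  · exact Real.exp_pos _

lemma tendsto_A (hN : TaskNum) {κ A : ℝ} (hκ : 0 < κ) (hA : 1 ≤ A) :
    Tendsto (fun k : ℕ => A ^ k * Real.exp (-(κ * 4 ^ k))) atTop (𝓝 0) :=
  (hN κ A hκ hA).1.tendsto_atTop_zero

lemma ev_one (hN : TaskNum) {κ : ℝ} (hκ : 0 < κ) :
    ∀ᶠ k in atTop, 4 * pt κ k ≤ pd κ (k + 1) := by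
  have h := (tendsto_A hN hκ (le_refl (1 : ℝ))).eventually (gt_mem_nhds (by norm_num : (0 : ℝ) < 1 / 4))
  filter_upwards [h] with k hk
  rw [one_pow, one_mul] at hk
  have e : pt κ k = Real.exp (-(κ * 4 ^ k)) * Real.exp (-(κ * 4 ^ k)) := by
    unfold pt; rw [← Real.exp_add]; congr 1; ring
  rw [e, pd_succ]
  have h0 := Real.exp_pos (-(κ * 4 ^ k))
  nlinarith

lemma ev_two (hN : TaskNum) {κ : ℝ} (hκ : 0 < κ) :
    ∀ᶠ k in atTop, pa (k + 1) + 4 * pt κ k / pd κ (k + 1) ≤ pa k := by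
  have h := (tendsto_A hN hκ (by norm_num : (1 : ℝ) ≤ 16)).eventually
    (gt_mem_nhds (by norm_num : (0 : ℝ) < 1 / 100))
  filter_upwards [h] with k hk
  have e : 4 * pt κ k / pd κ (k + 1) = 4 * Real.exp (-(κ * 4 ^ k)) := by
    rw [mul_div_assoc, pt_div]
  rw [e]
  unfold pa
  have h16 : (0 : ℝ) < 16 ^ k := by positivity
  have h1 : Real.exp (-(κ * 4 ^ k)) < 1 / 100 / 16 ^ k := by
    rw [lt_div_iff₀ h16]; linarith [mul_comm ((16 : ℝ) ^ k) (Real.exp (-(κ * 4 ^ k)))]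
  have e2 : (1 : ℝ) / 16 ^ (k + 1 + 1) = 1 / 256 * (1 / 16 ^ k) := by
    rw [pow_succ, pow_succ]; field_simp; norm_num
  have e3 : (1 : ℝ) / 16 ^ (k + 1) = 1 / 16 * (1 / 16 ^ k) := by
    rw [pow_succ]; field_simp
  have e4 : (1 : ℝ) / 100 / 16 ^ k = 1 / 100 * (1 / 16 ^ k) := by ring
  rw [e4] at h1
  rw [e2, e3]
  have h3 : (0 : ℝ) < 1 / 16 ^ k := by positivity
  nlinarith

lemma sum_td (hN : TaskNum) {κ : ℝ} (hκ : 0 < κ) : Summable (fun k => pt κ k / pd κ (k + 1)) := by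
  simp_rw [pt_div]
  have := (hN κ 1 hκ le_rfl).1
  simpa using this

lemma sum_t (hN : TaskNum) {κ : ℝ} (hκ : 0 < κ) : Summable (pt κ) := by
  have := (hN (2 * κ) 1 (by linarith) le_rfl).1
  simp only [one_pow, one_mul] at this
  exact this

lemma tend_a : Tendsto (fun k => (2 * (bl k : ℝ) + 1) * pa k ^ 2) atTop (𝓝 0) := by
  have h1 : Tendsto (fun k : ℕ => 3 * ((1 : ℝ) / 16) ^ k) atTop (𝓝 0) := by
    have := (tendsto_pow_atTop_nhds_zero_of_lt_one (by norm_num : (0 : ℝ) ≤ 1 / 16)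
      (by norm_num)).const_mul (3 : ℝ)
    simpa using this
  refine squeeze_zero (fun k => by positivity) (fun k => ?_) h1
  unfold bl pa
  push_cast
  have h16 : (1 : ℝ) ≤ 16 ^ (k + 1) := one_le_pow₀ (by norm_num)
  have hpos : (0 : ℝ) < 16 ^ (k + 1) := by positivity
  calc (2 * (16 : ℝ) ^ (k + 1) + 1) * (1 / 16 ^ (k + 1)) ^ 2
      ≤ (3 * 16 ^ (k + 1)) * (1 / 16 ^ (k + 1)) ^ 2 := by
        apply mul_le_mul_of_nonneg_right _ (by positivity); linarith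
    _ = 3 * (1 / 16 ^ (k + 1)) := by field_simp
    _ = 3 * ((1 / 16) ^ k * (1 / 16)) := by rw [pow_succ, one_div_pow]; field_simp
    _ ≤ 3 * (1 / 16) ^ k := by
        have : (0 : ℝ) ≤ (1 / 16) ^ k := by positivity
        nlinarith

lemma tend_s (hN : TaskNum) {κ : ℝ} (hκ : 0 < κ) :
    Tendsto (fun k => (2 * (bl k : ℝ) + 1) * ∑' j, pt κ (k + j) / pd κ (k + j + 1)) atTop (𝓝 0) := by
  have h1 := ((hN κ 16 hκ (by norm_num)).2).const_mul (48 : ℝ)
  rw [mul_zero] at h1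
  refine squeeze_zero (fun k => ?_) (fun k => ?_) h1
  · apply mul_nonneg (by positivity)
    exact tsum_nonneg fun j => by rw [pt_div]; exact (Real.exp_pos _).le
  · simp_rw [pt_div]
    have h0 : 0 ≤ ∑' j : ℕ, Real.exp (-(κ * 4 ^ (k + j))) := tsum_nonneg fun j => (Real.exp_pos _).le
    have h2 : 2 * (bl k : ℝ) + 1 ≤ 48 * 16 ^ k := by
      unfold bl
      push_cast
      have : (1 : ℝ) ≤ 16 ^ k := one_le_pow₀ (by norm_num)
      rw [pow_succ]
      linarith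
    calc (2 * (bl k : ℝ) + 1) * ∑' j : ℕ, Real.exp (-(κ * 4 ^ (k + j)))
        ≤ (48 * 16 ^ k) * ∑' j : ℕ, Real.exp (-(κ * 4 ^ (k + j))) :=
          mul_le_mul_of_nonneg_right h2 h0
      _ = _ := by ring

lemma pow_le_pt {c ε : ℝ} (hc : 0 < c) (hc' : c ≤ 1 / 2) (hε : 0 < ε) (hε' : ε ≤ 1) (k : ℕ) :
    (1 - c * ep ε k ^ 2) ^ bl k ≤ pt (c * ε ^ 2) k * pt (c * ε ^ 2) k := by
  have h1 : 1 - c * ep ε k ^ 2 ≤ Real.exp (-(c * ep ε k ^ 2)) := by
    have := Real.add_one_le_exp (-(c * ep ε k ^ 2)); linarith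
  have hep : ep ε k ≤ 1 := by
    unfold ep
    rw [div_le_one (by positivity)]
    exact hε'.trans (one_le_pow₀ (by norm_num))
  have hep0 : 0 ≤ ep ε k := by unfold ep; positivity
  have h0 : 0 ≤ 1 - c * ep ε k ^ 2 := by nlinarith
  calc (1 - c * ep ε k ^ 2) ^ bl k ≤ Real.exp (-(c * ep ε k ^ 2)) ^ bl k :=
        pow_le_pow_left₀ h0 h1 _
    _ = Real.exp (bl k * -(c * ep ε k ^ 2)) := by rw [Real.exp_nat_mul]
    _ = Real.exp (-(4 * (c * ε ^ 2) * 4 ^ k)) := by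
        congr 1
        unfold bl ep
        push_cast
        have e : (16 : ℝ) ^ (k + 1) = (2 ^ (k + 1)) ^ 2 * 4 ^ (k + 1) := by
          rw [← pow_mul, mul_comm (k + 1) 2, pow_mul, ← mul_pow]; norm_num
        rw [e, div_pow, pow_succ (4 : ℝ)]
        field_simp
    _ = _ := by
        unfold pt
        rw [← Real.exp_add]; congr 1; ring

lemma sum_p1 (hN : TaskNum) {c ε : ℝ} (C R : ℝ) (hC : 0 ≤ C) (hc : 0 < c) (hc' : c ≤ 1 / 2)
    (hε : 0 < ε) (hε' : ε ≤ 1) :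
    Summable fun k => C * R ^ 2 / (ep ε k ^ 3 * pa k ^ 2 * pt (c * ε ^ 2) k) *
      (1 - c * ep ε k ^ 2) ^ bl k := by
  have hκ : 0 < c * ε ^ 2 := by positivity
  have h1 := ((hN (2 * (c * ε ^ 2)) 2048 (by linarith) (by norm_num)).1).mul_left
    (C * R ^ 2 * 2048 / ε ^ 3)
  refine Summable.of_nonneg_of_le (fun k => ?_) (fun k => ?_) h1
  · have hep0 : 0 < ep ε k := by unfold ep; positivity
    have hep : ep ε k ≤ 1 := by
      unfold ep
      rw [div_le_one (by positivity)]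
      exact hε'.trans (one_le_pow₀ (by norm_num))
    obtain ⟨p1, p2, p3⟩ := params_pos (κ := c * ε ^ 2) k
    have h0 : 0 ≤ 1 - c * ep ε k ^ 2 := by nlinarith
    positivity
  · have hep0 : 0 < ep ε k := by unfold ep; positivity
    obtain ⟨p1, p2, p3⟩ := params_pos (κ := c * ε ^ 2) k
    calc C * R ^ 2 / (ep ε k ^ 3 * pa k ^ 2 * pt (c * ε ^ 2) k) * (1 - c * ep ε k ^ 2) ^ bl k
        ≤ C * R ^ 2 / (ep ε k ^ 3 * pa k ^ 2 * pt (c * ε ^ 2) k) *
          (pt (c * ε ^ 2) k * pt (c * ε ^ 2) k) :=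
          mul_le_mul_of_nonneg_left (pow_le_pt hc hc' hε hε' k) (by positivity)
      _ = C * R ^ 2 / (ep ε k ^ 3 * pa k ^ 2) * pt (c * ε ^ 2) k := by field_simp
      _ = C * R ^ 2 * 2048 / ε ^ 3 * (2048 ^ k * Real.exp (-(2 * (c * ε ^ 2) * 4 ^ k))) := by
          unfold ep pa pt
          have e : (2048 : ℝ) ^ k = (2 ^ k) ^ 3 * (16 ^ k) ^ 2 := by
            rw [pow_right_comm (2 : ℝ) k 3, pow_right_comm (16 : ℝ) k 2, ← mul_pow]
            norm_num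
          rw [e, div_pow, one_div, inv_pow]
          rw [pow_succ (2 : ℝ), pow_succ (16 : ℝ)]
          field_simp
          ring

lemma sum_p2 (hN : TaskNum) {κ ε : ℝ} (C : ℝ) (hC : 0 ≤ C) (hκ : 0 < κ) (hε : 0 < ε) :
    Summable fun k => C * ((bl (k + 1) : ℝ) + 1) ^ 4 * pd κ (k + 1) / ep ε (k + 1) := by
  have h1 := ((hN κ 131072 hκ (by norm_num)).1).mul_left (C * 512 ^ 4 * 4 / ε)
  refine Summable.of_nonneg_of_le (fun k => ?_) (fun k => ?_) h1
  · have hep0 : 0 < ep ε (k + 1) := by unfold ep; positivity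
    obtain ⟨p1, p2, p3⟩ := params_pos (κ := κ) (k + 1)
    positivity
  · have hep0 : 0 < ep ε (k + 1) := by unfold ep; positivity
    have h2 : (bl (k + 1) : ℝ) + 1 ≤ 512 * 16 ^ k := by
      unfold bl
      push_cast
      have : (1 : ℝ) ≤ 16 ^ k := one_le_pow₀ (by norm_num)
      rw [pow_succ, pow_succ]
      linarith
    have h3 : ((bl (k + 1) : ℝ) + 1) ^ 4 ≤ (512 * 16 ^ k) ^ 4 :=
      pow_le_pow_left₀ (by positivity) h2 4
    rw [pd_succ]
    calc C * ((bl (k + 1) : ℝ) + 1) ^ 4 * Real.exp (-(κ * 4 ^ k)) / ep ε (k + 1)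
        ≤ C * (512 * 16 ^ k) ^ 4 * Real.exp (-(κ * 4 ^ k)) / ep ε (k + 1) := by
          apply div_le_div_of_nonneg_right _ hep0.le
          apply mul_le_mul_of_nonneg_right _ (Real.exp_pos _).le
          exact mul_le_mul_of_nonneg_left h3 hC
      _ = C * 512 ^ 4 * 4 / ε * (131072 ^ k * Real.exp (-(κ * 4 ^ k))) := by
          unfold ep
          have e : (131072 : ℝ) ^ k = (16 ^ k) ^ 4 * 2 ^ k := by
            rw [pow_right_comm (16 : ℝ) k 4, ← mul_pow]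
            norm_num
          rw [e, mul_pow, pow_succ (2 : ℝ), pow_succ (2 : ℝ)]
          field_simp
          ring

end Pool.Agent.H695R3.PP
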