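import Pool.Agent.H695R3.PP.AsmNum

set_option autoImplicit false

open scoped BigOperators ENNReal
open MeasureTheory Filter Topology

namespace Pool.Agent.H695R3.PP

/-! ### the clamp -/

/-- clamping to `[-1, 1]` -/
noncomputable def cl (x : ℝ) : ℝ := max (-1) (min 1 x)

lemma cl_abs (x : ℝ) : |cl x| ≤ 1 := by
  unfold cl
  rw [abs_le]
  exact ⟨le_max_left _ _, max_le (by norm_num) (min_le_left _ _)⟩

lemma cl_eq {x : ℝ} (h : |x| ≤ 1) : cl x = x := by
  unfold cl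
  rw [abs_le] at h
  rw [min_eq_right h.2, max_eq_right h.1]

lemma cl_cont : Continuous cl := by unfold cl; fun_prop

lemma U_ae : ∀ᵐ x ∂U, |x| ≤ 1 := by
  unfold U
  apply Measure.ae_smul_measure
  filter_upwards [ae_restrict_mem measurableSet_Icc] with x hx
  rw [abs_le]; exact hx

lemma pi_ae (Q : Type) [Fintype Q] : ∀ᵐ η ∂(Measure.pi fun _ : Q => U), ∀ q, |η q| ≤ 1 := by
  rw [ae_all_iff]
  intro q
  exact (Measure.quasiMeasurePreserving_eval (fun _ : Q => U) q).ae U_ae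

/-! ### resampling -/

lemma resample_le (hR : TaskResample) {ι : Type} [DecidableEq ι] {X : ι → Type}
    [∀ i, MeasurableSpace (X i)] (μ : ∀ i, Measure (X i)) [∀ i, IsProbabilityMeasure (μ i)] (i : ι)
    {S : Set (∀ j, X j)} (hS : MeasurableSet S) {p : ℝ≥0∞}
    (h : ∀ ξ, μ i {η | Function.update ξ i η ∈ S} ≤ p) : Measure.infinitePi μ S ≤ p := by
  have hm : Measurable (fun q : (∀ j, X j) × X i => Function.update q.1 i q.2) := by
    rw [measurable_pi_iff]
    intro j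
    by_cases hj : j = i
    · subst hj
      simp only [Function.update_self]
      exact measurable_snd
    · simp only [Function.update_of_ne hj]
      exact (measurable_pi_apply j).comp measurable_fst
  rw [← hR ι X μ i, Measure.map_apply hm hS, Measure.prod_apply (hm hS)]
  calc ∫⁻ ξ, μ i (Prod.mk ξ ⁻¹' ((fun q : (∀ j, X j) × X i => Function.update q.1 i q.2) ⁻¹' S))
        ∂(Measure.infinitePi μ) ≤ ∫⁻ _ξ, p ∂(Measure.infinitePi μ) :=
        lintegral_mono fun ξ => h ξ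
    _ = p := by rw [lintegral_const, measure_univ, mul_one]

/-! ### window dependence -/

lemma isEig_congr {V V' : ℤ → ℝ} {a b : ℤ} {E : ℝ} {ψ : ℤ → ℝ}
    (h : ∀ n, a ≤ n → n ≤ b → V n = V' n) (hE : IsEig V a b E ψ) : IsEig V' a b E ψ := by
  obtain ⟨h1, h2, h3⟩ := hE
  exact ⟨h1, h2, fun n hn hn' => by rw [← h n hn hn']; exact h3 n hn hn'⟩

lemma bad1_congr {L : ℕ} {a τ : ℝ} (V V' : ℤ → ℝ)
    (h : ∀ n, -(L : ℤ) ≤ n → n ≤ L → V n = V' n) :
    V ∈ {V | Bad1 L a τ V} ↔ V' ∈ {V | Bad1 L a τ V} := by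
  constructor
  · rintro ⟨E, ψ, h1, h2⟩
    exact ⟨E, ψ, isEig_congr h h1, h2⟩
  · rintro ⟨E, ψ, h1, h2⟩
    exact ⟨E, ψ, isEig_congr (fun n hn hn' => (h n hn hn').symm) h1, h2⟩

lemma bad2_congr {L : ℕ} {d : ℝ} (V V' : ℤ → ℝ)
    (h : ∀ n, -(L : ℤ) ≤ n → n ≤ L → V n = V' n) :
    V ∈ {V | Bad2 L d V} ↔ V' ∈ {V | Bad2 L d V} := by
  constructor
  · rintro ⟨E, ψ, E', ψ', h1, h2, h3⟩
    exact ⟨E, ψ, E', ψ', isEig_congr h h1, isEig_congr h h2, h3⟩
  · rintro ⟨E, ψ, E', ψ', h1, h2, h3⟩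
    exact ⟨E, ψ, E', ψ', isEig_congr (fun n hn hn' => (h n hn hn').symm) h1,
      isEig_congr (fun n hn hn' => (h n hn hn').symm) h2, h3⟩

/-! ### the random sampling function -/

section

variable {Ω : Type} [AddCommGroup Ω] (H : ℕ → AddSubgroup Ω)

/-- configurations -/
abbrev Xi : Type := ∀ k, (Ω ⧸ H k) → ℝ

/-- one level -/
noncomputable def term (ε : ℝ) (ξ : Xi H) (k : ℕ) (ω : Ω) : ℝ :=
  ep ε k * cl (ξ k (QuotientAddGroup.mk ω))

/-- the sampling function -/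
noncomputable def ff (f₀ : Ω → ℝ) (ε : ℝ) (ξ : Xi H) (ω : Ω) : ℝ := f₀ ω + ∑' k, term H ε ξ k ω

lemma ep_pos {ε : ℝ} (hε : 0 < ε) (k : ℕ) : 0 < ep ε k := by unfold ep; positivity

lemma ep_hasSum (ε : ℝ) : HasSum (ep ε) ε := by
  have h := (hasSum_geometric_of_lt_one (by norm_num : (0 : ℝ) ≤ 1 / 2) (by norm_num)).mul_left (ε / 2)
  have e1 : ε / 2 * (1 - 1 / 2)⁻¹ = ε := by norm_num
  rw [e1] at h
  have e2 : (fun i : ℕ => ε / 2 * (1 / 2) ^ i) = ep ε := by
    funext k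
    unfold ep
    rw [pow_succ, one_div_pow]
    field_simp
  rwa [e2] at h

lemma term_abs {ε : ℝ} (hε : 0 < ε) (ξ : Xi H) (k : ℕ) (ω : Ω) : |term H ε ξ k ω| ≤ ep ε k := by
  unfold term
  rw [abs_mul, abs_of_pos (ep_pos hε k)]
  have := cl_abs (ξ k (QuotientAddGroup.mk ω))
  have := ep_pos hε k
  nlinarith

lemma term_summable {ε : ℝ} (hε : 0 < ε) (ξ : Xi H) (ω : Ω) : Summable fun k => term H ε ξ k ω :=
  Summable.of_norm_bounded (ep_hasSum ε).summable fun k => term_abs H hε ξ k ω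

lemma ff_sub {f₀ : Ω → ℝ} {ε : ℝ} (hε : 0 < ε) (ξ : Xi H) (ω : Ω) :
    |ff H f₀ ε ξ ω - f₀ ω| ≤ ε := by
  unfold ff
  rw [add_sub_cancel_left]
  have h := tsum_of_norm_bounded (f := fun k => term H ε ξ k ω) (ep_hasSum ε)
    (fun k => (Real.norm_eq_abs _).le.trans (term_abs H hε ξ k ω))
  rw [Real.norm_eq_abs] at h
  exact h

lemma ff_update {f₀ : Ω → ℝ} {ε : ℝ} (hε : 0 < ε) (ξ : Xi H) (k : ℕ) (η : (Ω ⧸ H k) → ℝ) (ω : Ω) :
    ff H f₀ ε (Function.update ξ k η) ω =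
      (ff H f₀ ε ξ ω - term H ε ξ k ω) + ep ε k * cl (η (QuotientAddGroup.mk ω)) := by
  unfold ff
  have h1 : ∑' j, term H ε (Function.update ξ k η) j ω - ∑' j, term H ε ξ j ω =
      term H ε (Function.update ξ k η) k ω - term H ε ξ k ω := by
    rw [← (term_summable H hε (Function.update ξ k η) ω).tsum_sub (term_summable H hε ξ ω)]
    rw [tsum_eq_single k]
    intro j hj
    unfold term
    rw [Function.update_of_ne hj, sub_self]
  have h2 : term H ε (Function.update ξ k η) k ω = ep ε k * cl (η (QuotientAddGroup.mk ω)) := by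
    unfold term
    rw [Function.update_self]
  rw [h2] at h1
  linarith

variable [TopologicalSpace Ω] [IsTopologicalAddGroup Ω]

lemma ff_cont {f₀ : Ω → ℝ} (hf : Continuous f₀) {ε : ℝ} (hε : 0 < ε) (hO : ∀ k, IsOpen (H k : Set Ω))
    (ξ : Xi H) : Continuous (ff H f₀ ε ξ) := by
  unfold ff
  apply hf.add
  apply continuous_tsum (u := ep ε) _ (ep_hasSum ε).summable
  · intro k ω
    exact term_abs H hε ξ k ω
  · intro k
    unfold term
    have : DiscreteTopology (Ω ⧸ H k) := QuotientAddGroup.discreteTopology (hO k)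
    exact continuous_const.mul (cl_cont.comp
      ((continuous_of_discreteTopology (f := ξ k)).comp QuotientAddGroup.continuous_mk))

variable [MeasurableSpace Ω] [BorelSpace Ω] [∀ k, Fintype (Ω ⧸ H k)]

lemma term_meas {ε : ℝ} (hO : ∀ k, IsOpen (H k : Set Ω)) (k : ℕ) :
    Measurable fun p : Xi H × Ω => term H ε p.1 k p.2 := by
  classical
  unfold term
  have : DiscreteTopology (Ω ⧸ H k) := QuotientAddGroup.discreteTopology (hO k)
  have e : (fun p : Xi H × Ω => p.1 k (QuotientAddGroup.mk p.2)) =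
      fun p => ∑ q : Ω ⧸ H k, if (QuotientAddGroup.mk p.2 : Ω ⧸ H k) = q then p.1 k q else 0 := by
    funext p
    rw [Finset.sum_ite_eq Finset.univ _ (fun q => p.1 k q)]
    simp
  have h1 : Measurable fun p : Xi H × Ω => p.1 k (QuotientAddGroup.mk p.2) := by
    rw [e]
    refine Finset.measurable_sum _ fun q _ => ?_
    refine Measurable.ite ?_ ?_ measurable_const
    · have h2 : IsOpen {ω : Ω | (QuotientAddGroup.mk ω : Ω ⧸ H k) = q} :=
        (isOpen_discrete {q}).preimage QuotientAddGroup.continuous_mk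
      exact measurable_snd h2.measurableSet
    · exact (measurable_pi_apply q).comp ((measurable_pi_apply k).comp measurable_fst)
  exact (cl_cont.measurable.comp h1).const_mul _

lemma ff_meas {f₀ : Ω → ℝ} (hf : Continuous f₀) {ε : ℝ} (hε : 0 < ε)
    (hO : ∀ k, IsOpen (H k : Set Ω)) : Measurable fun p : Xi H × Ω => ff H f₀ ε p.1 p.2 := by
  unfold ff
  apply (hf.measurable.comp measurable_snd).add
  refine measurable_of_tendsto_metrizable (f := fun (N : ℕ) (p : Xi H × Ω) =>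
    ∑ k ∈ Finset.range N, term H ε p.1 k p.2) (fun N => ?_) ?_
  · exact Finset.measurable_sum _ fun k _ => term_meas H hO k
  · rw [tendsto_pi_nhds]
    intro p
    exact (term_summable H hε p.1 p.2).hasSum.tendsto_sum_nat

/-- the law of the configurations -/
noncomputable def PX : Measure (Xi H) :=
  Measure.infinitePi fun k => (Measure.pi fun _ : Ω ⧸ H k => U)

instance : IsProbabilityMeasure (PX H) := by unfold PX; infer_instance

/-- one level, for a general window property -/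
lemma level_le (hR : TaskResample) (hTr : TaskTransfer) {f₀ : Ω → ℝ} (hf : Continuous f₀) {ε : ℝ}
    (hε : 0 < ε) (hε' : ε ≤ 1) {R : ℝ} (hfR : ∀ ω, |f₀ ω| ≤ R - 2)
    (hO : ∀ k, IsOpen (H k : Set Ω)) (α ω : Ω) (k L : ℕ)
    (hH : ∀ j : ℤ, j ≠ 0 → |j| ≤ 2 * L → j • α ∉ H k) {B : Set (ℤ → ℝ)} (hB : MeasurableSet B)
    (hw : ∀ V V' : ℤ → ℝ, (∀ n, -(L : ℤ) ≤ n → n ≤ L → V n = V' n) → (V ∈ B ↔ V' ∈ B))
    {p : ℝ≥0∞} (hp : ∀ W : ℤ → ℝ, (∀ n, |W n| ≤ R) →
      PZ {x | (fun n => W n + ep ε k * x n) ∈ B} ≤ p) :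
    PX H {ξ | (fun n : ℤ => ff H f₀ ε ξ (ω + n • α)) ∈ B} ≤ p := by
  classical
  have hS : MeasurableSet {ξ : Xi H | (fun n : ℤ => ff H f₀ ε ξ (ω + n • α)) ∈ B} := by
    apply measurableSet_preimage _ hB
    rw [measurable_pi_iff]
    intro n
    exact (ff_meas H hf hε hO).comp (measurable_id.prodMk measurable_const)
  unfold PX
  apply resample_le hR _ k hS
  intro ξ
  set W : ℤ → ℝ := fun n => ff H f₀ ε ξ (ω + n • α) - term H ε ξ k (ω + n • α) with hW
  have hWb : ∀ n, |W n| ≤ R := by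
    intro n
    have h1 := ff_sub H (f₀ := f₀) hε ξ (ω + n • α)
    have h2 := term_abs H hε ξ k (ω + n • α)
    have h3 := hfR (ω + n • α)
    have h4 : ep ε k ≤ 1 := by
      unfold ep
      rw [div_le_one (by positivity)]
      exact hε'.trans (one_le_pow₀ (by norm_num))
    rw [hW]
    have e : ff H f₀ ε ξ (ω + n • α) - term H ε ξ k (ω + n • α) =
      (ff H f₀ ε ξ (ω + n • α) - f₀ (ω + n • α)) + f₀ (ω + n • α) - term H ε ξ k (ω + n • α) := by
      ring
    show |ff H f₀ ε ξ (ω + n • α) - term H ε ξ k (ω + n • α)| ≤ R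
    rw [e]
    rw [abs_le] at h1 h2 h3 ⊢
    constructor <;> linarith [h1.1, h1.2, h2.1, h2.2, h3.1, h3.2]
  have h1 : {η : (Ω ⧸ H k) → ℝ | Function.update ξ k η ∈
      {ξ : Xi H | (fun n : ℤ => ff H f₀ ε ξ (ω + n • α)) ∈ B}} =ᵐ[Measure.pi fun _ : Ω ⧸ H k => U]
      {η | (fun n => W n + ep ε k * η (QuotientAddGroup.mk (ω + n • α))) ∈ B} := by
    filter_upwards [pi_ae (Ω ⧸ H k)] with η hη
    apply propext
    show (fun n : ℤ => ff H f₀ ε (Function.update ξ k η) (ω + n • α)) ∈ B ↔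
      (fun n : ℤ => W n + ep ε k * η (QuotientAddGroup.mk (ω + n • α))) ∈ B
    have e : (fun n : ℤ => ff H f₀ ε (Function.update ξ k η) (ω + n • α)) =
        fun n : ℤ => W n + ep ε k * η (QuotientAddGroup.mk (ω + n • α)) := by
      funext n
      rw [ff_update H hε, cl_eq (hη _)]
    rw [e]
  rw [measure_congr h1]
  have h2 := hTr (Ω ⧸ H k) (fun n => QuotientAddGroup.mk (ω + n • α)) L W (ep ε k) B ?_ hB hw
  · rw [h2]
    exact hp W hWb
  · intro i hi j hj hij
    by_contra hne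
    have h3 : -(ω + i • α) + (ω + j • α) ∈ H k := QuotientAddGroup.eq.1 hij
    have e : -(ω + i • α) + (ω + j • α) = (j - i) • α := by
      rw [sub_smul]; abel
    rw [e] at h3
    refine hH (j - i) (fun h => hne (by omega)) ?_ h3
    rw [abs_le]
    have := hi.1; have := hi.2; have := hj.1; have := hj.2
    constructor <;> omega

/-- Borel-Cantelli on the product space. -/
lemma bc {μ : Measure Ω} [IsFiniteMeasure μ] {f₀ : Ω → ℝ} (hf : Continuous f₀) {ε : ℝ}
    (hε : 0 < ε) (hO : ∀ k, IsOpen (H k : Set Ω)) (α : Ω) (m : ℤ) (B : ℕ → Set (ℤ → ℝ))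
    (hB : ∀ k, MeasurableSet (B k)) (p : ℕ → ℝ) (hp0 : ∀ k, 0 ≤ p k) (hp : Summable p)
    (h : ∀ k ω, PX H {ξ | (fun n : ℤ => ff H f₀ ε ξ (ω + n • α)) ∈ B k} ≤ ENNReal.ofReal (p k)) :
    ∀ᵐ q ∂((PX H).prod μ), ∀ᶠ k in atTop,
      (fun n : ℤ => ff H f₀ ε q.1 (q.2 + m • α + n • α)) ∉ B k := by
  have hm : ∀ k, MeasurableSet {q : Xi H × Ω |
      (fun n : ℤ => ff H f₀ ε q.1 (q.2 + m • α + n • α)) ∈ B k} := by
    intro k
    apply measurableSet_preimage _ (hB k)
    rw [measurable_pi_iff]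
    intro n
    have h1 : Measurable fun ω : Ω => ω + m • α + n • α :=
      (by fun_prop : Continuous fun ω : Ω => ω + m • α + n • α).measurable
    exact (ff_meas H hf hε hO).comp (measurable_fst.prodMk (h1.comp measurable_snd))
  have hle : ∀ k, ((PX H).prod μ) {q : Xi H × Ω |
      (fun n : ℤ => ff H f₀ ε q.1 (q.2 + m • α + n • α)) ∈ B k} ≤
      ENNReal.ofReal (p k) * μ Set.univ := by
    intro k
    rw [Measure.prod_apply_symm (hm k)]
    calc _ ≤ ∫⁻ _ω, ENNReal.ofReal (p k) ∂μ := lintegral_mono fun ω => h k (ω + m • α)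
      _ = _ := by rw [lintegral_const]
  refine ae_eventually_notMem (s := fun k => {q : Xi H × Ω |
      (fun n : ℤ => ff H f₀ ε q.1 (q.2 + m • α + n • α)) ∈ B k}) ?_
  refine ne_top_of_le_ne_top ?_ (ENNReal.tsum_le_tsum hle)
  rw [ENNReal.tsum_mul_right, ← ENNReal.ofReal_tsum_of_nonneg hp0 hp]
  exact ENNReal.mul_ne_top ENNReal.ofReal_ne_top (measure_ne_top μ _)

end

end Pool.Agent.H695R3.PP
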